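import Pool.Agent.X168.SY.AmenUF

/-!
# Symplectic forms in a prescribed class: amenable coverings and maps

`X` is a closed manifold with a continuous almost complex structure `J`, `σ` is a closed two-form
on `X`, `pr : Z → X` is a normal covering with amenable deck group `Γ`, and `f` is a smooth map of
`X` to a Euclidean space. Suppose that for some one-form `β` on `Z`, whose translates are bounded
with all their derivatives, the form `w = pr^* σ + dβ` satisfies: the differential of `f` vanishes
on all tangent vectors `v` for which the translates of `w` are not uniformly positive on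
`(v, J v)`; and in each fibre of `f` the set of the points over which `w` is not uniformly taming
has small components. Then the class of `σ` contains a symplectic form taming `J`, and it is
homotopic through nondegenerate forms to every form taming `J`.
-/

set_option autoImplicit false

open Set
open scoped Manifold ContDiff

namespace Pool.Agent.Results.MP_bf98aa_gt.AmenableMapsInClass

open Pool.Agent.Y501.SYP Pool.Agent.X168.SY

theorem result (d : ℕ) (Z X : Type) [TopologicalSpace Z] [ChartedSpace (ES d) Z]
    [IsManifold 𝓘(ℝ, ES d) ∞ Z] [TopologicalSpace X] [ChartedSpace (ES d) X]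
    [IsManifold 𝓘(ℝ, ES d) ∞ X] (Γ : Type) [Group Γ] [MulAction Γ Z]
    [CompactSpace X] [T2Space X] (hΓ : Amenable Γ) (pr : Z → X)
    (hpr : NormalCovering (ES d) Γ pr) (J : End (ES d) X) (hJ : IsAlmostComplex J)
    (σ : Form (ES d) X 2) (hσ : IsSmooth σ) (hσc : IsClosedForm σ)
    (β : Form (ES d) Z 1) (η : Form (ES d) Z 2) (hβ : IsSmooth β) (hη : IsSmooth η)
    (hβη : IsD β η) (hbt : BoundedTranslates1 Γ β)
    (n : ℕ) (f : X → ES n) (hf : ContMDiff 𝓘(ℝ, ES d) 𝓘(ℝ, ES n) ∞ f)
    (hker : KillsNonpositive Γ pr J (addF (lift pr σ) η) f)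
    (hsmall : SmallOnFibres Γ pr J (addF (lift pr σ) η) f) :
    ∃ (α : Form (ES d) X 1) (ρ : Form (ES d) X 2), IsSmooth α ∧ IsSmooth ρ ∧ IsD α ρ ∧
      IsTamingSymplectic (addF σ ρ) J ∧ ∀ τ : Form (ES d) X 2, (∀ x, TamesAt τ J x) →
        ∀ t : ℝ, 0 ≤ t → t ≤ 1 → Nondeg (seg τ (addF σ ρ) t) :=
  amenable_class_maps hΓ pr hpr J hJ σ hσ hσc β η hβ hη hβη hbt n f hf hker hsmall

end Pool.Agent.Results.MP_bf98aa_gt.AmenableMapsInClass
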