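import Pool.Agent.X5.SYR.FinalC

/-!
# Symplectic forms in a prescribed class: singular forms on coverings, taming on the average

`X` is a closed manifold with a continuous almost complex structure `J`, `σ₀` is a smooth closed
two-form on `X`, `K` is a closed subset whose `(d-1)`-dimensional Hausdorff measure is zero,
`pr : Z → X` is a normal covering with deck group `Γ` and `m` is a right invariant mean on the
bounded functions on `Γ`. Let `β` be a one-form on `Z`, smooth off the preimage of `K`, with
translates by `Γ` which are locally uniformly bounded there with all their derivatives, and let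
`w = pr^* σ₀ + dβ` there. Suppose that `β` and `w` are bounded near the points of `K` on all
sheets, that off `K` the average of the numbers `(γ^* w)(u, J u)` over `Γ` is nonnegative for all
`u`, and that the set of the points of `X` near which the average is not bounded below by
`c |u| ^ 2` off `K` (`c > 0`) has components which are small at all their points. Then the class of
`σ₀` contains a symplectic form taming `J`, and it is homotopic through nondegenerate forms to
every form taming `J`.
-/

set_option autoImplicit false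

open Set MeasureTheory
open scoped Manifold ContDiff

namespace Pool.Agent.Results.MP_bf98aa_gt.AveragedSingularInClass

open Pool.Agent.Y501.SYP Pool.Agent.X5.SYR

theorem result (d : ℕ) (hd : 1 ≤ d) (Z X : Type) [TopologicalSpace Z] [ChartedSpace (ES d) Z]
    [IsManifold 𝓘(ℝ, ES d) ∞ Z] [TopologicalSpace X] [ChartedSpace (ES d) X]
    [IsManifold 𝓘(ℝ, ES d) ∞ X] [CompactSpace X] [T2Space X]
    (J : End (ES d) X) (hJ : IsAlmostComplex J) (K : Set X) (hK : IsClosed K)
    (hH : ∀ x₀ : X, μH[(d : ℝ) - 1] (chartAt (ES d) x₀ '' (K ∩ (chartAt (ES d) x₀).source)) = 0)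
    (Γ : Type) [Group Γ] [MulAction Γ Z] (m : (Γ → ℝ) → ℝ) (hm : IsMean m)
    (pr : Z → X) (hpr : NormalCovering (ES d) Γ pr)
    (σ₀ : Form (ES d) X 2) (hσ₀ : IsSmooth σ₀) (hσ₀c : IsClosedForm σ₀)
    (β : Form (ES d) Z 1) (w : Form (ES d) Z 2) (hβ : SmoothOff β (pr ⁻¹' K))
    (hw : EqPlusD w (lift pr σ₀) β (pr ⁻¹' K))
    (hbt : BoundedTranslates1Off Γ β (pr ⁻¹' K))
    (hb : ∀ x ∈ K, BddSheets1 pr β K x ∧ BddSheets pr w K x)
    (hpos : WeaklyTamesOnAverage m pr J w K)
    (hsmall : ∀ x ∈ CritAverage m pr J w K,
      SmallAll J (connectedComponentIn (CritAverage m pr J w K) x) x) :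
    ∃ (α : Form (ES d) X 1) (ρ : Form (ES d) X 2), IsSmooth α ∧ IsSmooth ρ ∧ IsD α ρ ∧
      IsTamingSymplectic (addF σ₀ ρ) J ∧ ∀ τ : Form (ES d) X 2, (∀ x, TamesAt τ J x) →
        ∀ t : ℝ, 0 ≤ t → t ≤ 1 → NondegForm (segment τ (addF σ₀ ρ) t) :=
  removableAmenableClass hd m hm pr hpr J hJ K hK hH σ₀ hσ₀ hσ₀c β w hβ hw hbt hb hpos hsmall

end Pool.Agent.Results.MP_bf98aa_gt.AveragedSingularInClass
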