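import Pool.Agent.X24.SY.InClass

/-!
# Symplectic forms in prescribed classes from maps with good fibres

`X` is a closed manifold with a continuous almost complex structure `J`, `f : X → Y` is a smooth
map, `σ` and `ζ` are smooth closed two-forms on `X`. `σ(v, J v)` is nonnegative, and the
differential of `f` vanishes on all vectors `v` with `σ(v, J v) = 0`. Every fibre of `f` is good:
after the addition of an exact form, `ζ` is nonnegative on the null vectors of `σ` over the fibre,
and the points of the fibre with a nonzero common null vector form a set with small components.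
Then for all small `t > 0` ALL the cohomology classes in a neighbourhood of `[σ] + t [ζ]` contain
symplectic forms taming `J` (so they are homotopic through nondegenerate forms to every form
taming `J`); the neighbourhood is given by any finite family `κ` of closed two-forms, for instance
one which represents a basis of the second cohomology.
-/

set_option autoImplicit false

open Set
open scoped Manifold ContDiff

namespace Pool.Agent.Results.MP_bf98aa_gt.TwoLevelInClass

open Pool.Agent.Y501.SYP Pool.Agent.X24.SYC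

theorem result (d m k : ℕ) (X Y : Type) [TopologicalSpace X] [ChartedSpace (ES d) X]
    [IsManifold 𝓘(ℝ, ES d) ∞ X] [CompactSpace X] [T2Space X]
    [TopologicalSpace Y] [ChartedSpace (ES m) Y]
    [IsManifold 𝓘(ℝ, ES m) ∞ Y] [T2Space Y] [SigmaCompactSpace Y]
    (J : End (ES d) X) (hJ : IsAlmostComplex J)
    (f : X → Y) (hf : ContMDiff 𝓘(ℝ, ES d) 𝓘(ℝ, ES m) ∞ f)
    (σ ζ : Form (ES d) X 2) (hσ : IsSmooth σ) (hσc : IsClosedForm σ)
    (hζ : IsSmooth ζ) (hζc : IsClosedForm ζ)
    (hpos : ∀ (x : X) (v : TangentSpace 𝓘(ℝ, ES d) x), 0 ≤ qd σ J x v)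
    (hker : ∀ (x : X) (v : TangentSpace 𝓘(ℝ, ES d) x), qd σ J x v = 0 →
      mfderiv 𝓘(ℝ, ES d) 𝓘(ℝ, ES m) f x v = 0)
    (hfib : ∀ y : Y, GoodFibre σ ζ J (f ⁻¹' {y}))
    (κ : Fin k → Form (ES d) X 2) (hκ : ∀ i, IsSmooth (κ i)) (hκc : ∀ i, IsClosedForm (κ i)) :
    ∃ t₀ : ℝ, 0 < t₀ ∧ ∀ t : ℝ, 0 < t → t ≤ t₀ → ∃ ε : ℝ, 0 < ε ∧
      ∀ s : Fin k → ℝ, (∀ i, |s i| ≤ ε) →
        ∃ (α : Form (ES d) X 1) (ρ : Form (ES d) X 2), IsSmooth α ∧ IsSmooth ρ ∧ IsD α ρ ∧
          IsTamingSymplectic (addF (combo σ ζ κ t s) ρ) J ∧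
          ∀ τ : Form (ES d) X 2, (∀ x, TamesAt τ J x) → ∀ u : ℝ, 0 ≤ u → u ≤ 1 →
            Nondeg (seg τ (addF (combo σ ζ κ t s) ρ) u) :=
  twoLevelClass J hJ f hf σ ζ hσ hσc hζ hζc hpos hker hfib κ hκ hκc

end Pool.Agent.Results.MP_bf98aa_gt.TwoLevelInClass
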