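import Pool.Agent.X169.WT.BriU

/-!
# Symplectic forms in a prescribed class from continuous one-forms

`X` is a closed manifold with a continuous almost complex structure `J`, `σ` is a smooth closed
two-form, `τ` is a smooth two-form (not necessarily closed) and `α` is a continuous one-form,
which need not be differentiable anywhere. Suppose that `σ + dα` is bounded below by `τ` on the
pairs `(v, J v)` in the sense of distributions, that the differential of a smooth map `f` vanishes
on the vectors `v` with `τ(v, J v) ≤ 0`, and that in each fibre of `f` the components of the set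
of the points at which `τ` does not tame `J` are small. Then all classes near the class of `σ`
contain symplectic forms taming `J`, which are joined with every form taming `J` by segments of
nondegenerate forms.
-/

set_option autoImplicit false

open Set
open scoped Manifold ContDiff

namespace Pool.Agent.Results.MP_bf98aa_gt.WeakTamingInClass

open Pool.Agent.Y501.SYP Pool.Agent.X169.WTP

theorem result (d m k : ℕ) (X Y : Type) [TopologicalSpace X] [ChartedSpace (ES d) X]
    [IsManifold 𝓘(ℝ, ES d) ∞ X] [CompactSpace X] [T2Space X]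
    [TopologicalSpace Y] [ChartedSpace (ES m) Y] [IsManifold 𝓘(ℝ, ES m) ∞ Y] [T2Space Y]
    (J : End (ES d) X) (hJ : IsAlmostComplex J)
    (f : X → Y) (hf : ContMDiff 𝓘(ℝ, ES d) 𝓘(ℝ, ES m) ∞ f)
    (σ τ : Form (ES d) X 2) (hσ : IsSmooth σ) (hσc : IsClosedForm σ) (hτ : IsSmooth τ)
    (κ : Fin k → Form (ES d) X 2) (hκ : ∀ i, IsSmooth (κ i)) (hκc : ∀ i, IsClosedForm (κ i))
    (α : Form (ES d) X 1) (hα : IsContinuousForm α) (hweak : WeaklyAbove σ τ α J)
    (hker : ∀ (x : X) (v : TangentSpace 𝓘(ℝ, ES d) x), qd τ J x v ≤ 0 →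
      mfderiv 𝓘(ℝ, ES d) 𝓘(ℝ, ES m) f x v = 0)
    (hsmall : SmallOnFibres τ J f) :
    ∃ (β : Form (ES d) X 1) (η : Form (ES d) X 2), IsSmooth β ∧ IsSmooth η ∧ IsD β η ∧
      ∃ ε : ℝ, 0 < ε ∧ ∀ s : Fin k → ℝ, (∀ i, |s i| ≤ ε) →
        IsTamingSymplectic (addF (perturb σ κ s) η) J ∧
        ∀ ρ : Form (ES d) X 2, (∀ x, TamesAt ρ J x) → ∀ u : ℝ, 0 ≤ u → u ≤ 1 →
          Nondeg (seg ρ (addF (perturb σ κ s) η) u) :=
  weakTamingInClass J hJ f hf σ τ hσ hσc hτ κ hκ hκc α hα hweak hker hsmall

end Pool.Agent.Results.MP_bf98aa_gt.WeakTamingInClass
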